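import Mathlib
import Pool.Agent.W670.TL.Defs

/-!
TL-HER: Hermite, in the algebraic closure of the rational numbers.
-/

set_option autoImplicit false

namespace Pool.Agent.W131.TL

open NumberField Pool.Agent.W670.TL

theorem gen (Ω : Type) [Field Ω] [inst : Algebra ℚ Ω] (Y : ℝ) :
    {M : IntermediateField ℚ Ω | ∃ _ : NumberField M, |(discr M : ℝ)| ≤ Y}.Finite := by
  have hc : CharZero Ω := algebraRat.charZero Ω
  obtain rfl : inst = @DivisionRing.toRatAlgebra Ω _ hc := Subsingleton.elim _ _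
  apply ((NumberField.finite_of_discr_bdd Ω ⌈Y⌉₊).image Subtype.val).subset
  rintro M ⟨hM, hd⟩
  refine ⟨⟨M, @NumberField.to_finiteDimensional _ _ hM⟩, ?_, rfl⟩
  show |discr M| ≤ ((⌈Y⌉₊ : ℕ) : ℤ)
  have h1 : |(discr M : ℝ)| ≤ ((⌈Y⌉₊ : ℕ) : ℝ) := hd.trans (Nat.le_ceil Y)
  exact_mod_cast h1

theorem her : S_HER := by
  intro Y
  exact gen (AlgebraicClosure ℚ) Y

end Pool.Agent.W131.TL
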